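import Mathlib.CategoryTheory.Triangulated.TStructure.Induced
import Mathlib.CategoryTheory.Monoidal.Rigid.Basic
import Mathlib.CategoryTheory.Monoidal.Preadditive
import Mathlib.CategoryTheory.Simple
import Mathlib.CategoryTheory.Triangulated.Functor

/-!
# Tensor products and t-structures

General lemmas on a triangulated category with a bounded t-structure and a tensor product which is
exact in each variable and preserves the heart.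
-/

set_option autoImplicit false

open CategoryTheory CategoryTheory.Limits CategoryTheory.Pretriangulated
  CategoryTheory.Triangulated MonoidalCategory

namespace Pool.Agent.T2h11.TT

universe v u v' u'

section Dev

variable {C : Type u} [Category.{v} C]
variable {D : Type u'} [Category.{v'} D] [Preadditive D] [HasZeroObject D] [HasShift D ℤ]
  [∀ n : ℤ, (shiftFunctor D n).Additive] [Pretriangulated D]

/-- Every object of a bounded t-structure is an iterated extension of shifts of objects of the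
heart. -/
theorem devissage (t : TStructure D) (ι : C ⥤ D)
    (hh : ∀ X : D, t.IsLE X 0 → t.IsGE X 0 → ∃ M : C, Nonempty (ι.obj M ≅ X))
    (S : D → Prop) (hiso : ∀ X Y : D, Nonempty (X ≅ Y) → S X → S Y)
    (hext : ∀ T : Triangle D, T ∈ distTriang D → S T.obj₁ → S T.obj₃ → S T.obj₂) (n : ℕ) :
    ∀ a : ℤ, (∀ i : ℤ, a ≤ i → i ≤ a + n → ∀ M : C, S ((ι.obj M)⟦-i⟧)) →
      ∀ X : D, t.IsGE X a → t.IsLE X (a + n) → S X := by
  induction n with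
  | zero =>
    intro a h X h1 h2
    have h3 : t.IsLE (X⟦a⟧) 0 := t.isLE_shift X (a + (0 : ℕ)) a 0 (by simp)
    have h4 : t.IsGE (X⟦a⟧) 0 := t.isGE_shift X a a 0 (by simp)
    obtain ⟨M, ⟨e⟩⟩ := hh _ h3 h4
    refine hiso _ _ ⟨?_⟩ (h a le_rfl (by simp) M)
    exact (shiftFunctor D (-a)).mapIso e ≪≫ (shiftEquiv D a).unitIso.symm.app X
  | succ n ih =>
    intro a h X h1 h2
    obtain ⟨X1, X3, h5, h6, f, g, w, hT⟩ := t.exists_triangle X a (a + 1) rfl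
    have hX1' : t.IsLE X1 a := ⟨h5⟩
    have hX3' : t.IsGE X3 (a + 1) := ⟨h6⟩
    have hX1 : t.IsGE X1 a := by
      have h7 : t.IsGE (X3⟦(-1 : ℤ)⟧) (a + 2) := t.isGE_shift X3 (a + 1) (-1) (a + 2) (by lia)
      have h8 : t.IsGE (X3⟦(-1 : ℤ)⟧) a := t.isGE_of_ge _ a (a + 2) (by lia)
      have h9 := t.isGE₂ (Triangle.mk f g w).invRotate (inv_rot_of_distTriang _ hT) a h8 h1
      exact h9
    have hX3 : t.IsLE X3 (a + 1 + n) := by
      have h7 : t.IsLE (X1⟦(1 : ℤ)⟧) (a - 1) := t.isLE_shift X1 a 1 (a - 1) (by lia)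
      have h8 : t.IsLE (X1⟦(1 : ℤ)⟧) (a + 1 + n) := t.isLE_of_le _ (a - 1) (a + 1 + n) (by lia)
      have h9 : t.IsLE X (a + 1 + n) := by
        have : a + ((n + 1 : ℕ) : ℤ) = a + 1 + n := by push_cast; lia
        rwa [this] at h2
      have h10 := t.isLE₂ (Triangle.mk f g w).rotate (rot_of_distTriang _ hT) (a + 1 + n) h9 h8
      exact h10
    refine hext (Triangle.mk f g w) hT ?_ ?_
    · have h3 : t.IsLE (X1⟦a⟧) 0 := t.isLE_shift X1 a a 0 (by simp)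
      have h4 : t.IsGE (X1⟦a⟧) 0 := t.isGE_shift X1 a a 0 (by simp)
      obtain ⟨M, ⟨e⟩⟩ := hh _ h3 h4
      refine hiso _ _ ⟨?_⟩ (h a le_rfl (by lia) M)
      exact (shiftFunctor D (-a)).mapIso e ≪≫ (shiftEquiv D a).unitIso.symm.app X1
    · exact ih (a + 1) (fun i hi hi' M => h i (by lia) (by push_cast; lia) M) X3 hX3' hX3

/-- An exact functor which sends the heart to `≥ 0` sends bounded objects `≥ 0` to `≥ 0`. -/
theorem map_isGE (t : TStructure D) (ι : C ⥤ D)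
    (hh : ∀ X : D, t.IsLE X 0 → t.IsGE X 0 → ∃ M : C, Nonempty (ι.obj M ≅ X))
    (F : D ⥤ D) [F.CommShift ℤ] [F.IsTriangulated] (hF : ∀ M : C, t.IsGE (F.obj (ι.obj M)) 0)
    (X : D) (b : ℤ) (hX : t.IsGE X 0) (hb : t.IsLE X b) : t.IsGE (F.obj X) 0 := by
  obtain ⟨n, hn⟩ : ∃ n : ℕ, b ≤ (0 : ℤ) + n := ⟨b.toNat, by simp⟩
  refine devissage t ι hh (fun X => t.IsGE (F.obj X) 0) ?_ ?_ n 0 ?_ X hX
    (t.isLE_of_le _ b _ hn)
  · rintro X Y ⟨e⟩ h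
    exact t.isGE_of_iso (F.mapIso e) 0
  · intro T hT h1 h3
    exact t.isGE₂ _ (F.map_distinguished T hT) 0 h1 h3
  · intro i hi hi' M
    have := hF M
    have h2 : t.IsGE ((F.obj (ι.obj M))⟦-i⟧) i := t.isGE_shift _ 0 (-i) i (by lia)
    have h3' : t.IsGE ((F.obj (ι.obj M))⟦-i⟧) 0 := t.isGE_of_ge _ 0 i hi
    have h3 : t.IsGE ((F ⋙ shiftFunctor D (-i)).obj (ι.obj M)) 0 := h3'
    have h4 := t.isGE_of_iso ((F.commShiftIso (-i)).symm.app (ι.obj M)) 0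
    exact h4

/-- An exact functor which sends the heart to `≤ 0` sends bounded objects `≤ b` to `≤ b`. -/
theorem map_isLE (t : TStructure D) (ι : C ⥤ D)
    (hh : ∀ X : D, t.IsLE X 0 → t.IsGE X 0 → ∃ M : C, Nonempty (ι.obj M ≅ X))
    (F : D ⥤ D) [F.CommShift ℤ] [F.IsTriangulated] (hF : ∀ M : C, t.IsLE (F.obj (ι.obj M)) 0)
    (X : D) (a b : ℤ) (hX : t.IsGE X a) (hb : t.IsLE X b) : t.IsLE (F.obj X) b := by
  obtain ⟨n, hn⟩ : ∃ n : ℕ, a + 0 ≤ b + n := ⟨(a - b).toNat, by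
    have := Int.self_le_toNat (a - b); lia⟩
  obtain ⟨m, hm⟩ : ∃ m : ℕ, b = (min a b) + m := ⟨(b - min a b).toNat, by
    have := Int.toNat_of_nonneg (a := b - min a b) (by have := min_le_right a b; lia)
    lia⟩
  have ha : t.IsGE X (min a b) := t.isGE_of_ge _ (min a b) a (min_le_left a b)
  refine devissage t ι hh (fun X => t.IsLE (F.obj X) b) ?_ ?_ m (min a b) ?_ X ha ?_
  · rintro X Y ⟨e⟩ h
    exact t.isLE_of_iso (F.mapIso e) b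
  · intro T hT h1 h3
    exact t.isLE₂ _ (F.map_distinguished T hT) b h1 h3
  · intro i hi hi' M
    have := hF M
    have h2 : t.IsLE ((F.obj (ι.obj M))⟦-i⟧) i := t.isLE_shift _ 0 (-i) i (by lia)
    have h3' : t.IsLE ((F.obj (ι.obj M))⟦-i⟧) b := t.isLE_of_le _ i b (by lia)
    have h3 : t.IsLE ((F ⋙ shiftFunctor D (-i)).obj (ι.obj M)) b := h3'
    have h4 := t.isLE_of_iso ((F.commShiftIso (-i)).symm.app (ι.obj M)) b
    exact h4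
  · rw [← hm]; exact hb

end Dev

section Key

variable {C : Type u} [Category.{v} C] [Preadditive C]
variable {D : Type u'} [Category.{v'} D] [Preadditive D] [HasZeroObject D] [HasShift D ℤ]
  [∀ n : ℤ, (shiftFunctor D n).Additive] [Pretriangulated D]

/-- The fibre of the first map of a distinguished triangle. -/
theorem exists_fiber {X1 X2 X3 : D} (f : X1 ⟶ X2) (g : X2 ⟶ X3) (w : X3 ⟶ X1⟦(1 : ℤ)⟧)
    (hT : Triangle.mk f g w ∈ distTriang D) :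
    ∃ m : X3⟦(-1 : ℤ)⟧ ⟶ X1, m ≫ f = 0 ∧
      (∀ (B : D) (k : B ⟶ X1), k ≫ f = 0 → ∃ k' : B ⟶ X3⟦(-1 : ℤ)⟧, k = k' ≫ m) ∧
      (∀ (B : D) (k : B ⟶ X3⟦(-1 : ℤ)⟧), k ≫ m = 0 →
        ∃ (k' : B ⟶ X2⟦(-1 : ℤ)⟧) (n : X2⟦(-1 : ℤ)⟧ ⟶ X3⟦(-1 : ℤ)⟧), k = k' ≫ n) := by
  refine ⟨(Triangle.mk f g w).invRotate.mor₁, ?_, fun B k hk => ?_, fun B k hk => ?_⟩
  · exact comp_distTriang_mor_zero₁₂ _ (inv_rot_of_distTriang _ hT)
  · exact Triangle.coyoneda_exact₂ _ (inv_rot_of_distTriang _ hT) k hk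
  · obtain ⟨k', hk'⟩ := Triangle.coyoneda_exact₂ _
      (inv_rot_of_distTriang _ (inv_rot_of_distTriang _ hT)) k hk
    exact ⟨k', _, hk'⟩

/-- Lifting along the first map of a distinguished triangle. -/
theorem exists_lift {X1 X2 X3 : D} (f : X1 ⟶ X2) (g : X2 ⟶ X3) (w : X3 ⟶ X1⟦(1 : ℤ)⟧)
    (hT : Triangle.mk f g w ∈ distTriang D) (B : D) (k : B ⟶ X2) (hk : k ≫ g = 0) :
    ∃ k' : B ⟶ X1, k = k' ≫ f :=
  Triangle.coyoneda_exact₂ _ hT k hk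

/-- The second map of a distinguished triangle. -/
theorem exists_cofiber {X1 X2 X3 : D} (f : X1 ⟶ X2) (g : X2 ⟶ X3) (w : X3 ⟶ X1⟦(1 : ℤ)⟧)
    (hT : Triangle.mk f g w ∈ distTriang D) (B : D) (k : X3 ⟶ B) (hk : g ≫ k = 0) :
    ∃ k' : X1⟦(1 : ℤ)⟧ ⟶ B, k = w ≫ k' :=
  Triangle.yoneda_exact₂ _ (rot_of_distTriang _ hT) k hk

/-- An object `≥ 0` has a largest subobject in the heart. -/
theorem exists_sub (t : TStructure D) (X : D) (hX : t.IsGE X 0) :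
    ∃ (A : D) (j : A ⟶ X), t.IsLE A 0 ∧ t.IsGE A 0 ∧
      (∀ (B : D) (k : B ⟶ X), t.IsLE B 0 → ∃ k' : B ⟶ A, k = k' ≫ j) ∧
      (∀ (B : D) (k : B ⟶ A), t.IsLE B 0 → k ≫ j = 0 → k = 0) := by
  obtain ⟨A, X3, h5, h6, j, b, c, hT⟩ := t.exists_triangle X 0 1 (by lia)
  have hA : t.IsLE A 0 := ⟨h5⟩
  have hX3 : t.IsGE X3 1 := ⟨h6⟩
  have hX3' : t.IsGE (X3⟦(-1 : ℤ)⟧) 2 := t.isGE_shift X3 1 (-1) 2 (by lia)
  have hX3'' : t.IsGE (X3⟦(-1 : ℤ)⟧) 0 := t.isGE_of_ge _ 0 2 (by lia)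
  have hA' : t.IsGE A 0 := by
    have h9 := t.isGE₂ (Triangle.mk j b c).invRotate (inv_rot_of_distTriang _ hT) 0 hX3'' hX
    exact h9
  refine ⟨A, j, hA, hA', fun B k hB => ?_, fun B k hB hk => ?_⟩
  · obtain ⟨k', hk'⟩ := Triangle.coyoneda_exact₂ _ hT k (t.zero (k ≫ b) 0 1 (by lia))
    exact ⟨k', hk'⟩
  · obtain ⟨m, -, hm2, -⟩ := exists_fiber j b c hT
    obtain ⟨k', hk'⟩ := hm2 B k hk
    rw [hk', t.zero k' 0 2 (by lia), zero_comp]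

/-- An object `≤ 0` has a largest quotient in the heart. -/
theorem exists_quot (t : TStructure D) (Y : D) (hY : t.IsLE Y 0) :
    ∃ (N : D) (π : Y ⟶ N), t.IsLE N 0 ∧ t.IsGE N 0 ∧
      (∀ (B : D) (k : Y ⟶ B), t.IsGE B 0 → ∃ k' : N ⟶ B, k = π ≫ k') ∧
      (∀ (B : D) (k : N ⟶ B), t.IsGE B 0 → π ≫ k = 0 → k = 0) := by
  obtain ⟨X1, N, h5, h6, a, π, c, hT⟩ := t.exists_triangle Y (-1) 0 (by lia)
  have hX1 : t.IsLE X1 (-1) := ⟨h5⟩
  have hN : t.IsGE N 0 := ⟨h6⟩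
  have hX1' : t.IsLE (X1⟦(1 : ℤ)⟧) (-2) := t.isLE_shift X1 (-1) 1 (-2) (by lia)
  have hX1'' : t.IsLE (X1⟦(1 : ℤ)⟧) 0 := t.isLE_of_le _ (-2) 0 (by lia)
  have hN' : t.IsLE N 0 := by
    have h9 := t.isLE₂ (Triangle.mk a π c).rotate (rot_of_distTriang _ hT) 0 hY hX1''
    exact h9
  refine ⟨N, π, hN', hN, fun B k hB => ?_, fun B k hB hk => ?_⟩
  · obtain ⟨k', hk'⟩ := Triangle.yoneda_exact₂ _ hT k (t.zero (a ≫ k) (-1) 0 (by lia))
    exact ⟨k', hk'⟩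
  · obtain ⟨k', hk'⟩ := exists_cofiber a π c hT B k hk
    rw [hk', t.zero k' (-2) 0 (by lia), comp_zero]

/-- The cone of a nonzero map from a simple object of the heart to an object `≥ 0` is `≥ 0`. -/
theorem cone_isGE (t : TStructure D) (ι : C ⥤ D) [ι.Full] [ι.Faithful] [ι.Additive]
    (hh : ∀ X : D, t.IsLE X 0 → t.IsGE X 0 → ∃ M : C, Nonempty (ι.obj M ≅ X))
    (hι : ∀ M : C, t.IsLE (ι.obj M) 0 ∧ t.IsGE (ι.obj M) 0)
    (U : C) (hU : ∀ (A : C) (f : U ⟶ A), f ≠ 0 → Mono f)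
    (X Q : D) (hX : t.IsGE X 0) (f : ι.obj U ⟶ X) (hf : f ≠ 0) (g : X ⟶ Q)
    (w : Q ⟶ (ι.obj U)⟦(1 : ℤ)⟧) (hT : Triangle.mk f g w ∈ distTriang D) : t.IsGE Q 0 := by
  have hU0 := (hι U).1
  have hU1 := (hι U).2
  obtain ⟨A, j, hA1, hA2, hA3, hA4⟩ := exists_sub t X hX
  obtain ⟨f1, hf1⟩ := hA3 _ f hU0
  obtain ⟨A0, ⟨eA⟩⟩ := hh A hA1 hA2
  obtain ⟨f0, hf0⟩ := ι.map_surjective (f1 ≫ eA.inv)
  have hf0' : f0 ≠ 0 := by
    rintro rfl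
    apply hf
    rw [Functor.map_zero] at hf0
    have h1 : f1 = 0 := by
      have h2 := congrArg (fun x => x ≫ eA.hom) hf0
      simpa using h2.symm
    rw [hf1, h1, zero_comp]
  have hm : Mono f0 := hU A0 f0 hf0'
  have key : ∀ (Y : D) (k : Y ⟶ ι.obj U), t.IsLE Y 0 → k ≫ f = 0 → k = 0 := by
    intro Y k hY hk
    obtain ⟨N, π, hN1, hN2, hN3, hN4⟩ := exists_quot t Y hY
    obtain ⟨k1, hk1⟩ := hN3 _ k hU1
    have h1 : k1 ≫ f = 0 := hN4 _ _ hX (by rw [← Category.assoc, ← hk1, hk])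
    have h2 : k1 ≫ f1 = 0 := hA4 _ _ hN1 (by rw [Category.assoc, ← hf1, h1])
    obtain ⟨N0, ⟨eN⟩⟩ := hh N hN1 hN2
    obtain ⟨k0, hk0⟩ := ι.map_surjective (eN.hom ≫ k1)
    have h3 : k0 ≫ f0 = 0 := by
      apply ι.map_injective
      rw [Functor.map_comp, hk0, hf0, Functor.map_zero, Category.assoc, ← Category.assoc k1, h2,
        zero_comp, comp_zero]
    have h4 : k0 = 0 := by
      rw [← cancel_mono f0, h3, zero_comp]
    rw [h4, Functor.map_zero] at hk0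
    have h5 : k1 = 0 := by
      rw [← cancel_epi eN.hom, ← hk0, comp_zero]
    rw [hk1, h5, comp_zero]
  have hQ : t.IsGE (Q⟦(-1 : ℤ)⟧) 1 := by
    rw [t.isGE_iff_orthogonal 0 1 (by lia)]
    intro Y h hY
    obtain ⟨m, hm1, -, hm3⟩ := exists_fiber f g w hT
    have h1 : h ≫ m = 0 := key _ _ hY (by rw [Category.assoc, hm1, comp_zero])
    obtain ⟨h', n, hh'⟩ := hm3 Y h h1
    have h5 : t.IsGE (X⟦(-1 : ℤ)⟧) 1 := t.isGE_shift X 0 (-1) 1 (by lia)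
    rw [hh', t.zero h' 0 1 (by lia), zero_comp]
  exact t.isGE_of_shift Q 0 (-1) 1 (by lia)

variable [MonoidalCategory C] [MonoidalCategory D]
  [∀ X : D, (tensorLeft X).CommShift ℤ] [∀ X : D, (tensorLeft X).IsTriangulated]
  [∀ X : D, (tensorRight X).CommShift ℤ] [∀ X : D, (tensorRight X).IsTriangulated]

/-- The tensor product of objects `≥ 0` is `≥ 0`. -/
theorem tensor_isGE (t : TStructure D) (ι : C ⥤ D) [ι.Monoidal]
    (hh : ∀ X : D, t.IsLE X 0 → t.IsGE X 0 → ∃ M : C, Nonempty (ι.obj M ≅ X))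
    (hι : ∀ M : C, t.IsLE (ι.obj M) 0 ∧ t.IsGE (ι.obj M) 0)
    (hb : ∀ X : D, ∃ a b : ℤ, t.IsGE X a ∧ t.IsLE X b)
    (X Y : D) (hX : t.IsGE X 0) (hY : t.IsGE Y 0) : t.IsGE (X ⊗ Y) 0 := by
  have h1 : ∀ M : C, t.IsGE ((tensorRight Y).obj (ι.obj M)) 0 := by
    intro M
    obtain ⟨_, b, _, hb'⟩ := hb Y
    have h2 : ∀ M' : C, t.IsGE ((tensorLeft (ι.obj M)).obj (ι.obj M')) 0 := by
      intro M'
      have := (hι (M ⊗ M')).2
      have h3 := t.isGE_of_iso (Functor.Monoidal.μIso ι M M').symm 0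
      exact h3
    have h4 := map_isGE t ι hh (tensorLeft (ι.obj M)) h2 Y b hY hb'
    exact h4
  obtain ⟨_, b, _, hb'⟩ := hb X
  have h5 := map_isGE t ι hh (tensorRight Y) h1 X b hX hb'
  exact h5

/-- The tensor product of an object `≤ b` and an object of the heart is `≤ b`. -/
theorem tensor_isLE (t : TStructure D) (ι : C ⥤ D) [ι.Monoidal]
    (hh : ∀ X : D, t.IsLE X 0 → t.IsGE X 0 → ∃ M : C, Nonempty (ι.obj M ≅ X))
    (hι : ∀ M : C, t.IsLE (ι.obj M) 0 ∧ t.IsGE (ι.obj M) 0)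
    (hb : ∀ X : D, ∃ a b : ℤ, t.IsGE X a ∧ t.IsLE X b)
    (X : D) (P : C) (b : ℤ) (hX : t.IsLE X b) : t.IsLE (X ⊗ ι.obj P) b := by
  obtain ⟨a, _, ha, _⟩ := hb X
  have h2 : ∀ M : C, t.IsLE ((tensorRight (ι.obj P)).obj (ι.obj M)) 0 := by
    intro M
    have := (hι (M ⊗ P)).1
    have h3 := t.isLE_of_iso (Functor.Monoidal.μIso ι M P).symm 0
    exact h3
  have h5 := map_isLE t ι hh (tensorRight (ι.obj P)) h2 X a b ha hX
  exact h5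

/-- The main lemma: if `f ⊗ g = 0` for `f : 𝟙 ⟶ X` and `g : 𝟙 ⟶ Y`, then `f` or `g` vanishes after
tensoring with an object `P` of the heart without maps to objects `≤ -1`. -/
theorem main_lemma (t : TStructure D) (ι : C ⥤ D) [ι.Monoidal] [ι.Full] [ι.Faithful] [ι.Additive]
    (hh : ∀ X : D, t.IsLE X 0 → t.IsGE X 0 → ∃ M : C, Nonempty (ι.obj M ≅ X))
    (hι : ∀ M : C, t.IsLE (ι.obj M) 0 ∧ t.IsGE (ι.obj M) 0)
    (hb : ∀ X : D, ∃ a b : ℤ, t.IsGE X a ∧ t.IsLE X b)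
    (hU : ∀ (A : C) (f : 𝟙_ C ⟶ A), f ≠ 0 → Mono f)
    (P : C) (hP : ∀ (W : D) (φ : ι.obj P ⟶ W), t.IsLE W (-1) → φ = 0)
    (X Y : D) (f : 𝟙_ D ⟶ X) (g : 𝟙_ D ⟶ Y) (h : f ⊗ₘ g = 0) :
    f ▷ ι.obj P = 0 ∨ g ▷ ι.obj P = 0 := by
  have hun0 : t.IsLE (𝟙_ D) 0 := by
    have := (hι (𝟙_ C)).1
    exact t.isLE_of_iso (Functor.Monoidal.εIso ι).symm 0
  have hun1 : t.IsGE (𝟙_ D) 0 := by
    have := (hι (𝟙_ C)).2
    exact t.isGE_of_iso (Functor.Monoidal.εIso ι).symm 0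
  -- truncation
  have tr : ∀ X : D, ∃ (X' : D) (π : X ⟶ X'), t.IsGE X' 0 ∧
      ∀ f : 𝟙_ D ⟶ X, f ≫ π = 0 → f ▷ ι.obj P = 0 := by
    intro X
    obtain ⟨W, X', h5, h6, a, π, c, hT⟩ := t.exists_triangle X (-1) 0 (by lia)
    refine ⟨X', π, ⟨h6⟩, fun f hf => ?_⟩
    obtain ⟨f', hf'⟩ := exists_lift a π c hT _ f hf
    have hW : t.IsLE (W ⊗ ι.obj P) (-1) := tensor_isLE t ι hh hι hb W P (-1) ⟨h5⟩
    have h7 : f' ▷ ι.obj P = 0 := by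
      have h8 := hP (W ⊗ ι.obj P) ((λ_ (ι.obj P)).inv ≫ f' ▷ ι.obj P) hW
      rw [← cancel_epi (λ_ (ι.obj P)).inv, h8, comp_zero]
    rw [hf', comp_whiskerRight, h7, zero_comp]
  obtain ⟨X', πX, hX', hX⟩ := tr X
  obtain ⟨Y', πY, hY', hY⟩ := tr Y
  by_cases hf : f ≫ πX = 0
  · exact Or.inl (hX f hf)
  by_cases hg : g ≫ πY = 0
  · exact Or.inr (hY g hg)
  exfalso
  set f1 := f ≫ πX with hf1
  set g1 := g ≫ πY with hg1
  have hfg : f1 ⊗ₘ g1 = 0 := by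
    rw [hf1, hg1, ← MonoidalCategory.tensorHom_comp_tensorHom, h, zero_comp]
  -- the cone of `f1`
  obtain ⟨Q, b, c, hT⟩ := Pretriangulated.distinguished_cocone_triangle
    ((Functor.Monoidal.εIso ι).inv ≫ f1)
  have hne : (Functor.Monoidal.εIso ι).inv ≫ f1 ≠ 0 := by
    intro h0
    apply hf
    rw [← cancel_epi (Functor.Monoidal.εIso ι).inv, h0, comp_zero]
  have hQ : t.IsGE Q 0 := cone_isGE t ι hh hι (𝟙_ C) hU X' Q hX' _ hne b c hT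
  have hQY : t.IsGE (Q ⊗ Y') 0 := tensor_isGE t ι hh hι hb Q Y' hQ hY'
  have hT' := (tensorRight Y').map_distinguished _ hT
  obtain ⟨m, -, hm2, -⟩ := exists_fiber (X1 := ι.obj (𝟙_ C) ⊗ Y') (X2 := X' ⊗ Y') (X3 := Q ⊗ Y')
    (((Functor.Monoidal.εIso ι).inv ≫ f1) ▷ Y') (b ▷ Y') _ hT'
  have hz : ((Functor.Monoidal.εIso ι).hom ▷ 𝟙_ D ≫ (ι.obj (𝟙_ C)) ◁ g1) ≫
      ((Functor.Monoidal.εIso ι).inv ≫ f1) ▷ Y' = 0 := by
    rw [← hfg, comp_whiskerRight, tensorHom_def', Category.assoc, whisker_exchange_assoc]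
    simp
  obtain ⟨r, hr⟩ := hm2 _ _ hz
  have hr0 : r = 0 := by
    have h12 : t.IsGE ((Q ⊗ Y')⟦(-1 : ℤ)⟧) 1 := t.isGE_shift (Q ⊗ Y') 0 (-1) 1 (by lia)
    have h13 : t.IsLE (𝟙_ D ⊗ 𝟙_ D) 0 := t.isLE_of_iso (λ_ (𝟙_ D)).symm 0
    exact t.zero r 0 1 (by lia)
  rw [hr0, zero_comp] at hr
  apply hg
  have h14 : (ι.obj (𝟙_ C)) ◁ g1 = 0 := by
    rw [← cancel_epi ((Functor.Monoidal.εIso ι).hom ▷ 𝟙_ D), hr, comp_zero]
  have h15 : 𝟙_ D ◁ g1 = 0 := by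
    have h16 : (Functor.Monoidal.εIso ι).hom ▷ 𝟙_ D ≫ (ι.obj (𝟙_ C)) ◁ g1 =
        𝟙_ D ◁ g1 ≫ (Functor.Monoidal.εIso ι).hom ▷ Y' := by
      rw [whisker_exchange]
    rw [h14, comp_zero] at h16
    rw [← cancel_mono ((Functor.Monoidal.εIso ι).hom ▷ Y'), ← h16, zero_comp]
  have h17 : g1 = (λ_ (𝟙_ D)).inv ≫ 𝟙_ D ◁ g1 ≫ (λ_ Y').hom := by simp
  rw [h17, h15, zero_comp, comp_zero]

end Key

end Pool.Agent.T2h11.TT
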