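import Mathlib

/-!
# Definitions for MP_93437d_al

Finite tensor categories, the inclusion `C ⥤ D^b(C)`, tensor powers of a map `𝟙 ⟶ X` and
`⊗`-nilpotence on an object.
-/

set_option autoImplicit false

open CategoryTheory CategoryTheory.Limits CategoryTheory.Pretriangulated
  CategoryTheory.Triangulated MonoidalCategory

namespace Pool.Agent.T2h11.TT

universe w v u w'

/-- The object `X ⊗ ... ⊗ X` (`n` factors). -/
def powObj {D : Type u} [Category.{v} D] [MonoidalCategory D] (X : D) : ℕ → D
  | 0 => 𝟙_ D
  | n + 1 => powObj X n ⊗ X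

/-- The map `f ⊗ ... ⊗ f : 𝟙 ≅ 𝟙 ⊗ ... ⊗ 𝟙 ⟶ X ⊗ ... ⊗ X` (`n` factors). -/
def powMap {D : Type u} [Category.{v} D] [MonoidalCategory D] {X : D} (f : 𝟙_ D ⟶ X) :
    (n : ℕ) → (𝟙_ D ⟶ powObj X n)
  | 0 => 𝟙 (𝟙_ D)
  | n + 1 => (λ_ (𝟙_ D)).inv ≫ (powMap f n ⊗ₘ f)

/-- `f : 𝟙 ⟶ X` is `⊗`-nilpotent on `Z`: the map `Z ≅ 𝟙 ⊗ Z ⟶ X ⊗ ... ⊗ X ⊗ Z` induced by the
`n`-th tensor power of `f` vanishes for some `n ≥ 1`. -/
def NilpotentOn {D : Type u} [Category.{v} D] [HasZeroMorphisms D] [MonoidalCategory D] {X : D}
    (f : 𝟙_ D ⟶ X) (Z : D) : Prop :=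
  ∃ n : ℕ, 1 ≤ n ∧ (λ_ Z).inv ≫ powMap f n ▷ Z = 0

/-- `C`, a `k`-linear abelian rigid monoidal category with bilinear tensor product, is a finite
tensor category over `k`. -/
structure IsFiniteTensorCategory (k : Type w') [Field k] (C : Type u) [Category.{v} C] [Abelian C]
    [Linear k C] [MonoidalCategory C] [MonoidalPreadditive C] [MonoidalLinear k C]
    [RigidCategory C] : Prop where
  /-- the Hom spaces are finite dimensional -/
  finite_hom : ∀ X Y : C, Module.Finite k (X ⟶ Y)
  /-- every object has finite length: it is artinian ... -/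
  artinian : ∀ X : C, IsArtinianObject X
  /-- ... and noetherian -/
  noetherian : ∀ X : C, IsNoetherianObject X
  /-- there are finitely many simple objects up to isomorphism -/
  finite_simples : ∃ (n : ℕ) (S : Fin n → C), ∀ X : C, Simple X → ∃ i, Nonempty (X ≅ S i)
  /-- there are enough projectives -/
  enoughProjectives : EnoughProjectives C
  /-- `End(𝟙) = k` -/
  end_unit : Function.Bijective fun c : k => c • 𝟙 (𝟙_ C)

variable (C : Type u) [Category.{v} C] [Abelian C] [HasDerivedCategory.{w} C]

/-- The inclusion of `C` in its bounded derived category, as complexes concentrated in degree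
zero. -/
noncomputable def incl : C ⥤ DerivedCategory.Bounded C :=
  ObjectProperty.lift _ (DerivedCategory.singleFunctor C 0)
    (fun _ => ⟨⟨0, inferInstance⟩, ⟨0, inferInstance⟩⟩)

/-- The tensor product of `D^b(C)`: a symmetric monoidal structure, exact (i.e. a triangulated
functor) in each variable, which extends the symmetric monoidal structure of `C`. -/
class TensorTriangulated [MonoidalCategory C] [SymmetricCategory C]
    [MonoidalCategory (DerivedCategory.Bounded C)]
    [SymmetricCategory (DerivedCategory.Bounded C)] where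
  /-- `X ⊗ -` commutes with shifts -/
  shiftLeft : ∀ X : DerivedCategory.Bounded C, (tensorLeft X).CommShift ℤ
  /-- `X ⊗ -` sends distinguished triangles to distinguished triangles -/
  exactLeft : ∀ X : DerivedCategory.Bounded C, (tensorLeft X).IsTriangulated
  /-- `- ⊗ X` commutes with shifts -/
  shiftRight : ∀ X : DerivedCategory.Bounded C, (tensorRight X).CommShift ℤ
  /-- `- ⊗ X` sends distinguished triangles to distinguished triangles -/
  exactRight : ∀ X : DerivedCategory.Bounded C, (tensorRight X).IsTriangulated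
  /-- the inclusion `C ⥤ D^b(C)` is a symmetric monoidal functor -/
  inclusion : (incl C).Braided

attribute [instance] TensorTriangulated.shiftLeft TensorTriangulated.exactLeft
  TensorTriangulated.shiftRight TensorTriangulated.exactRight TensorTriangulated.inclusion

end Pool.Agent.T2h11.TT
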