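import Mathlib.CategoryTheory.Monoidal.Rigid.Basic
import Mathlib.CategoryTheory.Monoidal.Rigid.Braided
import Mathlib.CategoryTheory.Monoidal.Preadditive
import Mathlib.CategoryTheory.Simple
import Mathlib.CategoryTheory.Subobject.ArtinianObject
import Mathlib.CategoryTheory.Linear.Basic
import Mathlib.CategoryTheory.Abelian.Basic

/-!
# The unit object of a tensor category is simple
-/

set_option autoImplicit false

open CategoryTheory CategoryTheory.Limits MonoidalCategory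

namespace Pool.Agent.T2h11.TT

universe v u

variable {C : Type u} [Category.{v} C] [Abelian C] [MonoidalCategory C] [MonoidalPreadditive C]
  [RigidCategory C]

/-- If `i : S ⟶ 𝟙` is a monomorphism, its mate `𝟙 ⟶ Sᘁ` is an epimorphism. -/
theorem epi_mate {S : C} (i : S ⟶ 𝟙_ C) [Mono i] :
    Epi (η_ S Sᘁ ≫ i ▷ Sᘁ ≫ (λ_ Sᘁ).hom) := by
  refine Preadditive.epi_of_cancel_zero _ fun {Z} a ha => ?_
  have hm : Mono (i ▷ Z) := by
    have := (tensorRightAdjunction (ᘁZ) Z).rightAdjoint_preservesLimits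
    exact inferInstanceAs (Mono ((tensorRight Z).map i))
  have h1 : η_ S Sᘁ ≫ S ◁ a = 0 := by
    rw [← cancel_mono (i ▷ Z), zero_comp, Category.assoc, whisker_exchange, ← Category.assoc]
    have h2 : (η_ S Sᘁ ≫ i ▷ Sᘁ) ≫ 𝟙_ C ◁ a =
        ((η_ S Sᘁ ≫ i ▷ Sᘁ ≫ (λ_ Sᘁ).hom) ≫ a) ≫ (λ_ Z).inv := by simp
    rw [h2, ha, zero_comp]
  have h3 : (ρ_ Sᘁ).hom ≫ a = 0 := by
    apply (tensorLeftHomEquiv (𝟙_ C) S Sᘁ Z).injective
    have h4 : tensorLeftHomEquiv (𝟙_ C) S Sᘁ Z ((ρ_ Sᘁ).hom ≫ a) = η_ S Sᘁ ≫ S ◁ a := by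
      simp [tensorLeftHomEquiv, ← unitors_equal]
    have h5 : tensorLeftHomEquiv (𝟙_ C) S Sᘁ Z 0 = 0 := by
      simp [tensorLeftHomEquiv]
    rw [h4, h5, h1]
  rw [← cancel_epi (ρ_ Sᘁ).hom, h3, comp_zero]

/-- In an abelian rigid monoidal category whose unit object is artinian and has a field of
endomorphisms, the unit object is simple. -/
theorem simple_unit [IsArtinianObject (𝟙_ C)] (h0 : ¬ IsZero (𝟙_ C))
    (hend : ∀ f : 𝟙_ C ⟶ 𝟙_ C, f ≠ 0 → IsIso f) : Simple (𝟙_ C) := by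
  obtain ⟨Y, hY⟩ := exists_simple_subobject h0
  set S : C := (Y : C) with hS
  let i : S ⟶ 𝟙_ C := Y.arrow
  have hi : Mono i := inferInstanceAs (Mono Y.arrow)
  have hS0 : ¬ IsZero S := fun h => Simple.not_isZero S h
  -- the evaluation is nonzero
  have hη : η_ S Sᘁ ≠ 0 := by
    intro h
    apply hS0
    rw [IsZero.iff_id_eq_zero]
    have h1 := ExactPairing.evaluation_coevaluation S Sᘁ
    rw [h] at h1
    have h2 : (0 : 𝟙_ C ⟶ S ⊗ Sᘁ) ▷ S = 0 := MonoidalPreadditive.zero_whiskerRight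
    rw [h2, zero_comp] at h1
    have h3 : 𝟙 S = (λ_ S).inv ≫ ((λ_ S).hom ≫ (ρ_ S).inv) ≫ (ρ_ S).hom := by simp
    rw [h3, ← h1, zero_comp, comp_zero]
  have hep := epi_mate i
  set j := η_ S Sᘁ ≫ i ▷ Sᘁ ≫ (λ_ Sᘁ).hom with hj
  -- the map `S ⟶ S ⊗ Sᘁ`
  have hq : Epi (S ◁ j) := by
    have := (tensorLeftAdjunction (ᘁS) S).leftAdjoint_preservesColimits
    exact inferInstanceAs (Epi ((tensorLeft S).map j))
  let q : S ⟶ S ⊗ Sᘁ := (ρ_ S).inv ≫ S ◁ j
  have hqe : Epi q := epi_comp _ _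
  have hq0 : q ≠ 0 := by
    intro h
    apply hη
    have h1 : 𝟙 (S ⊗ Sᘁ) = 0 := by
      rw [← cancel_epi q, h, zero_comp, zero_comp]
    rw [← Category.comp_id (η_ S Sᘁ), h1, comp_zero]
  have hqi : IsIso q := isIso_of_epi_of_nonzero hq0
  let c : 𝟙_ C ⟶ S := η_ S Sᘁ ≫ inv q
  have hc : c ≫ i ≠ 0 := by
    intro h
    apply hη
    have h1 : c = 0 := by rw [← cancel_mono i, h, zero_comp]
    rw [← cancel_mono (inv q), zero_comp]
    exact h1
  have hiso := hend _ hc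
  have hie : Epi i := epi_of_epi c i
  have hii : IsIso i := isIso_of_mono_of_epi i
  exact Simple.of_iso (asIso i).symm

/-- Nonzero maps from a simple object are monomorphisms. -/
theorem mono_of_simple {U A : C} [Simple U] (f : U ⟶ A) (hf : f ≠ 0) : Mono f :=
  Preadditive.mono_of_kernel_zero (kernel_zero_of_nonzero_from_simple hf)

end Pool.Agent.T2h11.TT
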