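import Mathlib
import Pool.Agent.T2h11.TT.Defs
import Pool.Agent.T2h11.TT.Abs
import Pool.Agent.T2h11.TT.Unit

/-!
# The bounded derived category of a finite tensor category
-/

set_option autoImplicit false

open CategoryTheory CategoryTheory.Limits CategoryTheory.Pretriangulated
  CategoryTheory.Triangulated MonoidalCategory

namespace Pool.Agent.T2h11.TT

universe w v u

theorem nilpotentOn_of_whisker {D : Type u} [Category.{v} D] [HasZeroMorphisms D]
    [MonoidalCategory D] {X : D} (f : 𝟙_ D ⟶ X) (Z : D) (hf : f ▷ Z = 0) :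
    NilpotentOn f Z := by
  refine ⟨1, le_rfl, ?_⟩
  change (λ_ Z).inv ≫ ((λ_ (𝟙_ D)).inv ≫ (𝟙 (𝟙_ D) ⊗ₘ f)) ▷ Z = 0
  rw [id_tensorHom, ← leftUnitor_inv_naturality, comp_whiskerRight, hf, zero_comp, comp_zero]

variable (C : Type u) [Category.{v} C] [Abelian C] [HasDerivedCategory.{w} C]

instance : (incl C).Full := by
  unfold incl; infer_instance

instance : (incl C).Faithful := by
  unfold incl; infer_instance

instance : (incl C).Additive where
  map_add {X Y f g} := by
    apply (DerivedCategory.Bounded.ι (C := C)).map_injective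
    exact (DerivedCategory.singleFunctor C 0).map_add

/-- The t-structure. -/
noncomputable abbrev tb : TStructure (DerivedCategory.Bounded C) :=
  (DerivedCategory.TStructure.t (C := C)).onBounded

theorem incl_heart (M : C) : (tb C).IsLE ((incl C).obj M) 0 ∧ (tb C).IsGE ((incl C).obj M) 0 := by
  constructor
  · rw [ObjectProperty.tStructure_isLE_iff]
    exact inferInstanceAs (((DerivedCategory.singleFunctor C 0).obj M).IsLE 0)
  · rw [ObjectProperty.tStructure_isGE_iff]
    exact inferInstanceAs (((DerivedCategory.singleFunctor C 0).obj M).IsGE 0)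

theorem heart_incl (X : DerivedCategory.Bounded C) (h1 : (tb C).IsLE X 0)
    (h2 : (tb C).IsGE X 0) : ∃ M : C, Nonempty ((incl C).obj M ≅ X) := by
  rw [ObjectProperty.tStructure_isLE_iff] at h1
  rw [ObjectProperty.tStructure_isGE_iff] at h2
  have h1' : X.obj.IsLE 0 := h1
  have h2' : X.obj.IsGE 0 := h2
  obtain ⟨M, ⟨e⟩⟩ := DerivedCategory.exists_iso_singleFunctor_obj_of_isGE_of_isLE X.obj 0
  exact ⟨M, ⟨(ObjectProperty.fullyFaithfulι _).preimageIso e.symm⟩⟩

theorem bdd (X : DerivedCategory.Bounded C) : ∃ a b : ℤ, (tb C).IsGE X a ∧ (tb C).IsLE X b := by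
  obtain ⟨⟨a, ha⟩, ⟨b, hb⟩⟩ := X.property
  exact ⟨a, b, (ObjectProperty.tStructure_isGE_iff _ _ _ _).2 ha,
    (ObjectProperty.tStructure_isLE_iff _ _ _ _).2 hb⟩

theorem proj_zero (P : C) [Projective P] (W : DerivedCategory.Bounded C)
    (φ : (incl C).obj P ⟶ W) (hW : (tb C).IsLE W (-1)) : φ = 0 := by
  rw [ObjectProperty.tStructure_isLE_iff] at hW
  have hW' : W.obj.IsLE (-1) := hW
  obtain ⟨K, hK, ⟨e⟩⟩ := DerivedCategory.exists_iso_Q_obj_of_isLE W.obj (-1)
  apply (DerivedCategory.Bounded.ι (C := C)).map_injective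
  let e' := (DerivedCategory.singleFunctorIsoCompQ C 0).app P
  have h1 := DerivedCategory.from_singleFunctor_obj_eq_zero_of_projective
    (e'.inv ≫ (DerivedCategory.Bounded.ι (C := C)).map φ ≫ e.hom) (-1) (by lia)
  have h2 : (DerivedCategory.Bounded.ι (C := C)).map φ ≫ e.hom = 0 :=
    (cancel_epi e'.inv).1 (h1.trans comp_zero.symm)
  have h3 : (DerivedCategory.Bounded.ι (C := C)).map φ = 0 :=
    (cancel_mono e.hom).1 (h2.trans zero_comp.symm)
  rw [h3, Functor.map_zero]

/-- The main theorem. -/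
theorem main [MonoidalCategory C] [MonoidalPreadditive C] [RigidCategory C]
    [EnoughProjectives C] [IsArtinianObject (𝟙_ C)] (h0 : ¬ IsZero (𝟙_ C))
    (hend : ∀ f : 𝟙_ C ⟶ 𝟙_ C, f ≠ 0 → IsIso f)
    [MonoidalCategory (DerivedCategory.Bounded C)]
    [∀ X : DerivedCategory.Bounded C, (tensorLeft X).CommShift ℤ]
    [∀ X : DerivedCategory.Bounded C, (tensorLeft X).IsTriangulated]
    [∀ X : DerivedCategory.Bounded C, (tensorRight X).CommShift ℤ]
    [∀ X : DerivedCategory.Bounded C, (tensorRight X).IsTriangulated]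
    [(incl C).Monoidal]
    {X Y : DerivedCategory.Bounded C} (f : 𝟙_ (DerivedCategory.Bounded C) ⟶ X)
    (g : 𝟙_ (DerivedCategory.Bounded C) ⟶ Y)
    (h : (λ_ (𝟙_ (DerivedCategory.Bounded C))).inv ≫ (f ⊗ₘ g) = 0) :
    ∃ Z : DerivedCategory.Bounded C, ¬ IsZero Z ∧ (NilpotentOn f Z ∨ NilpotentOn g Z) := by
  have hs : Simple (𝟙_ C) := simple_unit h0 hend
  have hfg : f ⊗ₘ g = 0 := (cancel_epi (λ_ (𝟙_ (DerivedCategory.Bounded C))).inv).1
    (h.trans comp_zero.symm)
  let P : C := Projective.over (𝟙_ C)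
  have hP0 : ¬ IsZero P := by
    intro hP
    apply h0
    have h1 : Projective.π (𝟙_ C) = 0 := hP.eq_zero_of_src _
    rw [IsZero.iff_id_eq_zero, ← cancel_epi (Projective.π (𝟙_ C)), h1, zero_comp, zero_comp]
  have hmain := main_lemma (tb C) (incl C) (heart_incl C) (incl_heart C) (bdd C)
    (fun A f hf => mono_of_simple f hf) P (fun W φ hW => proj_zero C P W φ hW) X Y f g hfg
  refine ⟨(incl C).obj P, ?_, ?_⟩
  · intro hz
    apply hP0
    rw [IsZero.iff_id_eq_zero]
    apply (incl C).map_injective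
    exact hz.eq_of_src _ _
  · exact hmain.imp (nilpotentOn_of_whisker f _) (nilpotentOn_of_whisker g _)

end Pool.Agent.T2h11.TT
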